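import Pool.Agent.Y703.XL.Stm
import Pool.Agent.Y85.XK.LA

/-!
# Project XL: the law of the number of the solutions of a random symmetric completion (S_LA)

Adaptation of `Pool.Agent.Y85.XK.t_LA` by helper85.
-/

set_option autoImplicit false

open scoped Classical

namespace Pool.Agent.Y994.XL

open Function Module Finset
open Pool.Agent.Y759.CX (fr fr_equiv fr_comp)
open Pool.Agent.Y703.XK (prs)
open Pool.Agent.Y703.XL
open Pool.Agent.Y85.XK

section

variable {ι κ : Type} [Fintype ι] [Fintype κ]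

lemma cond_iff (MA : ι → ι → F) (MC : ι → κ → F) (MS : κ → κ → F) (x : ι → F) (y : κ → F) :
    ((∀ x', bf MA x x' + bf MC x' y = 0) ∧ ∀ y', bf MC x y' + bf MS y y' = 0) ↔
      (∀ v, ∑ u, x u * MA u v + ∑ k, MC v k * y k = 0) ∧
      (∀ l, ∑ u, x u * MC u l + ∑ k, y k * MS k l = 0) := by
  constructor
  · rintro ⟨h1, h2⟩
    refine ⟨all_zero _ fun x' => ?_, all_zero _ fun y' => ?_⟩
    · have h3 := h1 x'
      rw [bf_l, bf_r, ← sum_add_distrib] at h3
      rw [← h3]
      exact sum_congr rfl fun v _ => by rw [add_mul]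
    · have h3 := h2 y'
      rw [bf_l, bf_l, ← sum_add_distrib] at h3
      rw [← h3]
      exact sum_congr rfl fun v _ => by rw [add_mul]
  · rintro ⟨h1, h2⟩
    refine ⟨fun x' => ?_, fun y' => ?_⟩
    · rw [bf_l, bf_r, ← sum_add_distrib]
      refine sum_eq_zero fun v _ => ?_
      rw [← add_mul, h1, zero_mul]
    · rw [bf_l, bf_l, ← sum_add_distrib]
      refine sum_eq_zero fun v _ => ?_
      rw [← add_mul, h2, zero_mul]

end

section main

variable {U J : Type} [Fintype U] [Fintype J] [LinearOrder J]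

lemma third_row (ks : J) (A : U → U → F) (B : U → J → F) (hA : ∀ u v, A u v = A v u)
    (α : prs J → F) (x : U → F) (y : {k : J // k ≠ ks} → F)
    (h1 : ∀ v, ∑ u, x u * mA A B u v + ∑ k, mC ks B v k * y k = 0)
    (h2 : ∀ l, ∑ u, x u * mC ks B u l + ∑ k, y k * (mL ks α k l + mZ ks B k l) = 0) :
    (∀ u, ∑ v, A u v * (x v - x u) + ∑ l, B u l * (zx ks y l - x u) = 0) ∧
    ∀ k, ∑ u, B u k * (x u - zx ks y k) +
        ∑ l, Pool.Agent.Y703.XK.ext α k l * (zx ks y l - zx ks y k) = 0 := by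
  have g1 : ∀ u, ∑ v, A u v * (x v - x u) + ∑ l, B u l * (zx ks y l - x u) = 0 := by
    intro u
    rw [row1 ks A B hA]
    exact h1 u
  have g2 : ∀ k, k ≠ ks → ∑ u, B u k * (x u - zx ks y k) +
      ∑ l, Pool.Agent.Y703.XK.ext α k l * (zx ks y l - zx ks y k) = 0 := by
    intro k hk
    have h3 := row2 ks B α x y ⟨k, hk⟩
    rw [h2 ⟨k, hk⟩] at h3
    exact h3
  have g3 : ∑ u, B u ks * (x u - zx ks y ks) +
      ∑ l, Pool.Agent.Y703.XK.ext α ks l * (zx ks y l - zx ks y ks) = 0 := by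
    have t1 := tot_symm A hA x
    have t2 := tot_symm (Pool.Agent.Y703.XK.ext α) (ext_symm α) (zx ks y)
    have t3 := tot_cross B x (zx ks y)
    have t4 : ∑ u, (∑ v, A u v * (x v - x u) + ∑ l, B u l * (zx ks y l - x u)) = 0 :=
      sum_eq_zero fun u _ => g1 u
    have t5 : ∑ k, (∑ u, B u k * (x u - zx ks y k) +
        ∑ l, Pool.Agent.Y703.XK.ext α k l * (zx ks y l - zx ks y k)) =
        ∑ u, B u ks * (x u - zx ks y ks) +
          ∑ l, Pool.Agent.Y703.XK.ext α ks l * (zx ks y l - zx ks y ks) := by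
      refine sum_eq_single ks (fun k _ hk => g2 k hk) fun h => absurd (mem_univ _) h
    rw [← t5]
    rw [sum_add_distrib] at t4 ⊢
    rw [t1, zero_add] at t4
    rw [t2, add_zero]
    rw [t4, zero_add] at t3
    exact t3
  refine ⟨g1, fun k => ?_⟩
  by_cases hk : k = ks
  · rw [hk]
    exact g3
  · exact g2 k hk

lemma rows_sub (ks : J) (A : U → U → F) (B : U → J → F) (hA : ∀ u v, A u v = A v u)
    (α : prs J → F) (c : U → F) (d : J → F)
    (h1 : ∀ u, ∑ v, A u v * (c v - c u) + ∑ l, B u l * (d l - c u) = 0)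
    (h2 : ∀ k, ∑ u, B u k * (c u - d k) +
        ∑ l, Pool.Agent.Y703.XK.ext α k l * (d l - d k) = 0) :
    (∀ v, ∑ u, (c u - d ks) * mA A B u v +
      ∑ k : {k : J // k ≠ ks}, mC ks B v k * (d k - d ks) = 0) ∧
    (∀ l, ∑ u, (c u - d ks) * mC ks B u l +
      ∑ k : {k : J // k ≠ ks}, (d k - d ks) * (mL ks α k l + mZ ks B k l) = 0) := by
  have e2 : ∀ k, zx ks (fun k : {k : J // k ≠ ks} => d k - d ks) k = d k - d ks := by
    intro k
    by_cases hk : k = ks
    · rw [hk, zx_ks, sub_self]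
    · exact zx_of ks (fun k : {k : J // k ≠ ks} => d k - d ks) ⟨k, hk⟩
  refine ⟨fun v => ?_, fun l => ?_⟩
  · have h3 := row1 ks A B hA (fun u => c u - d ks)
      (fun k : {k : J // k ≠ ks} => d k - d ks) v
    rw [← h3]
    simp only [e2, sub_sub_sub_cancel_right]
    exact h1 v
  · have h3 := row2 ks B α (fun u => c u - d ks)
      (fun k : {k : J // k ≠ ks} => d k - d ks) l
    rw [← h3]
    simp only [e2, sub_sub_sub_cancel_right]
    exact h2 l

/-- the solutions of the Laplacian system are the solutions of the reduced system and a constant -/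
lemma nA_eq (ks : J) (A : U → U → F) (B : U → J → F) (hA : ∀ u v, A u v = A v u)
    (α : prs J → F) :
    nA A B (Pool.Agent.Y703.XK.ext α) =
      3 * nG (bf (mA A B)) (bf (mC ks B)) (bf fun k l => mL ks α k l + mZ ks B k l) := by
  unfold nA nG
  have h3 : Nat.card F = 3 := by
    rw [Nat.card_eq_fintype_card, ZMod.card]
  have h4 : Nat.card (F × {p : (U → F) × ({k : J // k ≠ ks} → F) //
      (∀ x', bf (mA A B) p.1 x' + bf (mC ks B) x' p.2 = 0) ∧
        ∀ y', bf (mC ks B) p.1 y' + bf (fun k l => mL ks α k l + mZ ks B k l) p.2 y' = 0}) =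
      3 * Nat.card {p : (U → F) × ({k : J // k ≠ ks} → F) //
      (∀ x', bf (mA A B) p.1 x' + bf (mC ks B) x' p.2 = 0) ∧
        ∀ y', bf (mC ks B) p.1 y' + bf (fun k l => mL ks α k l + mZ ks B k l) p.2 y' = 0} := by
    rw [Nat.card_prod, h3]
  refine Eq.trans (Nat.card_congr ?_) h4
  exact {
    toFun := fun p => (p.1.2 ks,
      ⟨(fun u => p.1.1 u - p.1.2 ks, fun k => p.1.2 k - p.1.2 ks),
        (cond_iff _ _ _ _ _).2 (rows_sub ks A B hA α p.1.1 p.1.2 p.2.1 p.2.2)⟩)
    invFun := fun q => ⟨(fun u => q.2.1.1 u + q.1, fun k => zx ks q.2.1.2 k + q.1), by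
      have h4 := (cond_iff _ _ _ _ _).1 q.2.2
      have h5 := third_row ks A B hA α q.2.1.1 q.2.1.2 h4.1 h4.2
      refine ⟨fun u => ?_, fun k => ?_⟩
      · simp only [add_sub_add_right_eq_sub]
        exact h5.1 u
      · simp only [add_sub_add_right_eq_sub]
        exact h5.2 k⟩
    left_inv := fun p => by
      have e2 : ∀ k, zx ks (fun k : {k : J // k ≠ ks} => p.1.2 k - p.1.2 ks) k =
          p.1.2 k - p.1.2 ks := by
        intro k
        by_cases hk : k = ks
        · rw [hk, zx_ks, sub_self]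
        · exact zx_of ks (fun k : {k : J // k ≠ ks} => p.1.2 k - p.1.2 ks) ⟨k, hk⟩
      refine Subtype.ext (Prod.ext (funext fun u => ?_) (funext fun k => ?_))
      · exact sub_add_cancel _ _
      · show zx ks (fun k : {k : J // k ≠ ks} => p.1.2 k - p.1.2 ks) k + p.1.2 ks = p.1.2 k
        rw [e2, sub_add_cancel]
    right_inv := fun q => by
      refine Prod.ext ?_ (Subtype.ext (Prod.ext (funext fun u => ?_) (funext fun k => ?_)))
      · show zx ks q.2.1.2 ks + q.1 = q.1
        rw [zx_ks, zero_add]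
      · show q.2.1.1 u + q.1 - (zx ks q.2.1.2 ks + q.1) = q.2.1.1 u
        rw [zx_ks, zero_add, add_sub_cancel_right]
      · show zx ks q.2.1.2 k + q.1 - (zx ks q.2.1.2 ks + q.1) = q.2.1.2 k
        rw [zx_ks, zero_add, add_sub_cancel_right, zx_of] }

end main

lemma bound {r z u n : ℕ} (h : n ≤ z + u + 1) :
    (3 : ℝ) ^ r * (1 / 3) ^ z ≤ 3 ^ (r + 1) * (3 ^ u / 3 ^ n) := by
  rw [one_div_pow, ← mul_div_assoc, ← mul_div_assoc, mul_one,
    div_le_div_iff₀ (by positivity) (by positivity)]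
  have h1 : (3 : ℝ) ^ n ≤ 3 ^ (z + u + 1) := pow_le_pow_right₀ (by norm_num) h
  calc (3 : ℝ) ^ r * 3 ^ n ≤ 3 ^ r * 3 ^ (z + u + 1) := by gcongr
    _ = 3 ^ (r + 1) * 3 ^ u * 3 ^ z := by ring

theorem t_LA : S_ABS → S_LIM → S_LA := by
  intro hABS hLIM r U J _ _ _ A B hJ hA hB
  obtain ⟨ks, hks⟩ := exists_ks hJ B hB
  obtain ⟨Z, hm, key⟩ := hABS ({k : J // k ≠ ks} → F) (U → F)
    (bf (mA A B)) (bf (mC ks B)) (bf_symm _ (mA_symm A B hA))
    (fun x hx => by
      by_contra hne
      obtain ⟨k, hk, hk'⟩ := hks x (by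
        by_contra hc
        push Not at hc
        exact hne (funext hc))
      apply hk'
      exact all_zero (fun k : {k : J // k ≠ ks} => ∑ i, x i * mC ks B i k) (fun y => by
        rw [← bf_l]
        exact hx y) ⟨k, hk⟩)
  rw [finrank_fintype_fun_eq_card, finrank_fintype_fun_eq_card] at hm
  have e1 : Fintype.card {k : J // k ≠ ks} = Fintype.card J - 1 := by
    rw [Fintype.card_subtype_compl, Fintype.card_subtype_eq]
  have h5 : ((univ.filter fun α : prs J → ZMod 3 =>
      nA A B (Pool.Agent.Y703.XK.ext α) = 3 ^ (r + 1)).card : ℝ) / 3 ^ (prs J).card =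
      fr (fun S : Sy ({k : J // k ≠ ks} → F) =>
        nG (bf (mA A B)) (bf (mC ks B)) S.1 = 3 ^ r) := by
    let S0 : Sy ({k : J // k ≠ ks} → F) := ⟨bf (mZ ks B), bf_symm _ (mZ_symm ks B)⟩
    rw [← fr_equiv (Equiv.addRight S0)
      (fun S : Sy ({k : J // k ≠ ks} → F) =>
        nG (bf (mA A B)) (bf (mC ks B)) S.1 = 3 ^ r),
      ← fr_comp (pa ks) (pa_surj ks)]
    unfold Pool.Agent.Y759.CX.fr
    have h6 : Nat.card (prs J → F) = 3 ^ (prs J).card := by
      rw [Nat.card_fun, Nat.card_eq_fintype_card, Nat.card_eq_fintype_card, ZMod.card,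
        Fintype.card_coe]
    rw [h6, Nat.card_eq_fintype_card, Fintype.card_subtype]
    push_cast
    congr 3
    refine Finset.filter_congr fun α _ => ?_
    rw [nA_eq ks A B hA α, bf_add, pow_succ, mul_comm (3 ^ r) 3]
    exact Nat.mul_right_inj (by norm_num)
  rw [h5, key]
  refine (hLIM Z r).trans (bound ?_)
  omega

end Pool.Agent.Y994.XL
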